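import Mathlib
import Pool.Agent.Helper969.TS.E2
set_option autoImplicit false

/-!
# The extension conjecture for the paraboloid on average along the Schroedinger flow

Let `m ≥ 1` and `d = m + 1`; the question is about `d = 3`. Let `E` be the extension operator of the
paraboloid in `ℝ^d`. We write it as `E g(x, t) = ∫ g(y) exp(2πi(y·x + |y|² t)) dy`; the operator of the
problem file is `ξ ↦ E g(-ξ/(2π))`. Let `u(a, ·) = E f(·, a)` be the free Schroedinger wave with any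
data `f ∈ L²(ℝ^m)` and let `χ` be a smooth function with compact support. We take the slices
`u(a, ·)` as densities, multiplied by `χ`, and compare the norm of their extensions with the norms
of the slices, on average over `a`. Write `J` for the integral of `‖u(a, ·)‖_q^q` over
`A - 1 ≤ a ≤ A + 2`.

* (Range) For `q > 2d/(d-1)` (if `d = 3`: for `q > 3`) the integral of `‖E(χ u(a, ·))‖_q^q` over
  `A ≤ a ≤ A + 1` is at most `C J`: on average over the time slices of every wave the estimate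
  `L^q → L^q(ℝ^d)` of Q1 holds in the full range.
* (Endpoint) For `q = 2d/(d-1)` (if `d = 3`: for `q = 3`) the same holds with the extensions
  restricted to `|t| ≤ R` and with the factor `log R`, `R ≥ 2`. This is the growth for a smooth
  density.
* (Decay) For `q > 2` and for each single `t`, the average over `a` of the `q`-th power of the
  `L^q(ℝ^{d-1})` norm of `E(χ u(a, ·))(·, t)` is at most `C (1+|t|)^(-(d-1)(q/2-1)) J`, which is the
  rate for a smooth density.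

* (Almost every slice) For `2 < q < 2(d+1)/(d-1)` and for almost every single `a` the integral of
  `‖E(χ u(a, ·))(·, t)‖_q^q` over `R ≤ |t| ≤ 2R`, divided by `R^(1 - (d-1)(q/2-1))`, has an upper
  limit as `R → ∞` which is at most `C ‖u(a, ·)‖_q^q`, with the norm of the same slice. So the far
  part of the estimate of Q1 holds at almost every slice; for `q > 2d/(d-1)` the exponent of `R` is
  negative, and it is `0` for `q = 2d/(d-1)`.

The constant `C` depends on `m`, `q`, `χ` only. The wave `u` may concentrate at many times and places.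
-/

namespace Pool.Agent.Results.MP_5ab805_an.AverageOverTimes

open MeasureTheory Set Metric Complex Filter
open scoped ENNReal NNReal Topology ContDiff

/-- The extension operator of the paraboloid in `ℝ^(m+1)`:
`E g(x, t) = ∫ g(y) exp(2πi(y·x + |y|² t)) dy`. -/
noncomputable def ext {m : ℕ} (g : (Fin m → ℝ) → ℂ) (z : (Fin m → ℝ) × ℝ) : ℂ :=
  ∫ y, g y * cexp (2 * Real.pi * I * ((∑ i, y i * z.1 i + (∑ i, y i ^ 2) * z.2 : ℝ) : ℂ))

/-- `f` is square integrable -/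
def SquareIntegrable {m : ℕ} (f : (Fin m → ℝ) → ℂ) : Prop :=
  Measurable f ∧ ∫⁻ y, ‖f y‖ₑ ^ 2 < ⊤

/-- `u` is Borel measurable, and for every `a` the function `u a` is the limit in `L²(ℝ^m)`, as
`N → ∞`, of `x ↦ ∫_{[-N,N]^m} f(y) exp(2πi(y·x + |y|² a)) dy`. -/
def Wave {m : ℕ} (f : (Fin m → ℝ) → ℂ) (u : ℝ → (Fin m → ℝ) → ℂ) : Prop :=
  Measurable (Function.uncurry u) ∧ ∀ a : ℝ, Tendsto (fun N : ℕ => ∫⁻ x, ‖u a x -
    ext ((Icc (fun _ : Fin m => -(N : ℝ)) (fun _ => (N : ℝ))).indicator f) (x, a)‖ₑ ^ 2) atTop (𝓝 0)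

theorem ext_eq {m : ℕ} (g : (Fin m → ℝ) → ℂ) (x : Fin m → ℝ) (a : ℝ) :
    ext g (x, a) = Pool.Agent.Helper969.TS.W g a x := by
  unfold ext Pool.Agent.Helper969.TS.W
  congr 1
  ext y
  rw [Pool.Agent.Helper969.TS.em_exp, Finset.sum_add_distrib, ← Finset.sum_mul]

theorem sol_of {m : ℕ} {f : (Fin m → ℝ) → ℂ} {u : ℝ → (Fin m → ℝ) → ℂ} (h : Wave f u) :
    Pool.Agent.Helper969.TS.Sol f u := by
  refine ⟨fun a => h.1.comp measurable_prodMk_left, fun a => ?_⟩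
  have h1 := h.2 a
  simp only [ext_eq] at h1
  exact h1

theorem X_meas {m : ℕ} {φ : (Fin m → ℝ) → ℂ} {u : ℝ → (Fin m → ℝ) → ℂ}
    (hφ : Measurable (Pool.Agent.Helper969.TS.ch φ)) (hu : Measurable (Function.uncurry u)) :
    Measurable fun z : (ℝ × ℝ) × (Fin m → ℝ) => Pool.Agent.Helper969.TS.X φ u z.1.1 z.1.2 z.2 := by
  apply StronglyMeasurable.measurable
  apply StronglyMeasurable.integral_prod_right'
    (f := fun b : ((ℝ × ℝ) × (Fin m → ℝ)) × (Fin m → ℝ) =>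
      Pool.Agent.Helper969.TS.ch φ b.2 * u b.1.1.1 b.2 *
        Pool.Agent.W771.MD.em b.1.2 b.1.1.2 b.2)
  apply Measurable.stronglyMeasurable
  refine ((hφ.comp measurable_snd).mul ?_).mul ?_
  · exact hu.comp (show Measurable fun b : ((ℝ × ℝ) × (Fin m → ℝ)) × (Fin m → ℝ) =>
      (b.1.1.1, b.2) by fun_prop)
  · exact Pool.Agent.W771.MD.em_cont.measurable.comp
      (show Measurable fun b : ((ℝ × ℝ) × (Fin m → ℝ)) × (Fin m → ℝ) =>
        ((b.1.2, b.1.1.2), b.2) by fun_prop)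

theorem lint_eq {m : ℕ} {φ : (Fin m → ℝ) → ℂ} {u : ℝ → (Fin m → ℝ) → ℂ}
    (hφ : Measurable (Pool.Agent.Helper969.TS.ch φ)) (hu : ∀ a, Measurable (u a)) (a q : ℝ) :
    ∫⁻ z, ‖ext (fun ξ => Pool.Agent.Helper969.TS.ch φ ξ * u a ξ) z‖ₑ ^ q =
      ∫⁻ t, ∫⁻ x, ‖Pool.Agent.Helper969.TS.X φ u a t x‖ₑ ^ q := by
  have h1 : Measurable (ext fun ξ => Pool.Agent.Helper969.TS.ch φ ξ * u a ξ) := by
    have h2 := (Pool.Agent.Helper969.TS.W_meas2 (f := fun ξ =>
      Pool.Agent.Helper969.TS.ch φ ξ * u a ξ) (hφ.mul (hu a))).comp measurable_swap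
    have h3 : (ext fun ξ => Pool.Agent.Helper969.TS.ch φ ξ * u a ξ) =
        (fun z : ℝ × (Fin m → ℝ) => Pool.Agent.Helper969.TS.W (fun ξ =>
          Pool.Agent.Helper969.TS.ch φ ξ * u a ξ) z.1 z.2) ∘ Prod.swap := by
      ext z
      exact ext_eq _ z.1 z.2
    rw [h3]
    exact h2
  rw [Measure.volume_eq_prod, lintegral_prod_symm' _ (h1.enorm.pow_const q)]
  simp only [ext_eq]
  rfl

/-- **Theorem.** -/
theorem result (m : ℕ) (hm : 1 ≤ m) (χ : (Fin m → ℝ) → ℂ) (hχ : ContDiff ℝ ∞ χ)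
    (hχc : HasCompactSupport χ) (q : ℝ) (hq : 2 < q) : ∃ C : ℝ≥0,
    ∀ (f : (Fin m → ℝ) → ℂ) (u : ℝ → (Fin m → ℝ) → ℂ), SquareIntegrable f → Wave f u → ∀ A : ℝ,
      (2 * ((m : ℝ) + 1) / m < q →
        ∫⁻ a in Icc A (A + 1), ∫⁻ z, ‖ext (fun y => χ y * u a y) z‖ₑ ^ q ≤
          C * ∫⁻ a in Icc (A - 1) (A + 2), ∫⁻ y, ‖u a y‖ₑ ^ q) ∧
      (q = 2 * ((m : ℝ) + 1) / m → ∀ R : ℝ, 2 ≤ R →
        ∫⁻ a in Icc A (A + 1), ∫⁻ t in Icc (-R) R, ∫⁻ x,
          ‖ext (fun y => χ y * u a y) (x, t)‖ₑ ^ q ≤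
            C * ENNReal.ofReal (Real.log R) *
              ∫⁻ a in Icc (A - 1) (A + 2), ∫⁻ y, ‖u a y‖ₑ ^ q) ∧
      (∀ t : ℝ, ∫⁻ a in Icc A (A + 1), ∫⁻ x, ‖ext (fun y => χ y * u a y) (x, t)‖ₑ ^ q ≤
        C * ENNReal.ofReal ((1 + |t|) ^ (-((m : ℝ) * (q / 2 - 1)))) *
          ∫⁻ a in Icc (A - 1) (A + 2), ∫⁻ y, ‖u a y‖ₑ ^ q) ∧
      (q < 2 * ((m : ℝ) + 2) / m → ∀ᵐ a : ℝ,
        limsup (fun R : ℝ => ENNReal.ofReal (R ^ ((m : ℝ) * (q / 2 - 1) - 1)) *
          ∫⁻ t in {t : ℝ | R ≤ |t| ∧ |t| ≤ 2 * R}, ∫⁻ x,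
            ‖ext (fun y => χ y * u a y) (x, t)‖ₑ ^ q) atTop ≤ C * ∫⁻ y, ‖u a y‖ₑ ^ q) := by
  have hm0 : (0 : ℝ) < m := by exact_mod_cast hm
  have hq0 : 0 < q := by linarith
  have hq1 : 0 < q - 1 := by linarith
  have hq2 : 0 < q - 2 := by linarith
  have hLp : ∀ r : ℝ, 0 < r → ∫⁻ x, ‖χ x‖ₑ ^ r ≠ ⊤ := by
    intro r hr
    have h1 : MemLp χ (ENNReal.ofReal r) := hχ.continuous.memLp_of_hasCompactSupport hχc
    have h2 := h1.2
    rw [eLpNorm_lt_top_iff_lintegral_rpow_enorm_lt_top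
      (by rw [Ne, ENNReal.ofReal_eq_zero, not_le]; exact hr) ENNReal.ofReal_ne_top,
      ENNReal.toReal_ofReal hr.le] at h2
    exact h2.ne
  obtain ⟨φ, hφ, rfl⟩ := Pool.Agent.Helper969.TS.exists_cut χ hχ hχc
  have hχm : Measurable (Pool.Agent.Helper969.TS.ch φ) := hχ.continuous.measurable
  obtain ⟨C, hC, h⟩ := Pool.Agent.Helper969.TS.decay m φ hφ hχm q hq
    (hLp _ (by positivity)) (hLp _ (by positivity))
  have he : (m : ℝ) - m * q / 2 = -((m : ℝ) * (q / 2 - 1)) := by ring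
  rw [he] at h
  set K : ℝ≥0∞ := if 2 * ((m : ℝ) + 1) / m < q then
    ∫⁻ t : ℝ, ENNReal.ofReal ((1 + |t|) ^ (-((m : ℝ) * (q / 2 - 1)))) else 0 with hK
  have hKt : K ≠ ⊤ := by
    rw [hK]
    split_ifs with h1
    · refine Pool.Agent.Helper969.TS.tail_fin _ ?_
      rw [div_lt_iff₀ hm0] at h1
      nlinarith
    · exact ENNReal.zero_ne_top
  set D : ℝ≥0∞ := 8 * (∫⁻ z, ‖φ z‖ₑ) ^ q with hD
  have hDt : D ≠ ⊤ := ENNReal.mul_ne_top (by norm_num)
    (ENNReal.rpow_ne_top_of_nonneg hq0.le hφ.i.2.ne)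
  have hCC : C + C * K + 4 * C + D ≠ ⊤ :=
    ENNReal.add_ne_top.2 ⟨ENNReal.add_ne_top.2 ⟨ENNReal.add_ne_top.2 ⟨hC, ENNReal.mul_ne_top hC hKt⟩,
      ENNReal.mul_ne_top (by norm_num) hC⟩, hDt⟩
  refine ⟨(C + C * K + 4 * C + D).toNNReal, ?_⟩
  rw [ENNReal.coe_toNNReal hCC]
  intro f u hf hu A
  have hus : ∀ a, Measurable (u a) := fun a => hu.1.comp measurable_prodMk_left
  have hhm : Measurable (Pool.Agent.Helper969.TS.hh q u) :=
    (hu.1.enorm.pow_const q).lintegral_prod_right'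
  have h1 := h f u hf.1 hf.2.ne (sol_of hu) hhm A
  set J := ∫⁻ a in Icc (A - 1) (A + 2), ∫⁻ y, ‖u a y‖ₑ ^ q with hJ
  have hXm : Measurable fun p : ℝ × ℝ =>
      ∫⁻ x, ‖Pool.Agent.Helper969.TS.X φ u p.1 p.2 x‖ₑ ^ q :=
    ((X_meas hχm hu.1).enorm.pow_const q).lintegral_prod_right'
  refine ⟨fun hq3 => ?_, fun hq3 R hR => ?_, fun t => ?_, fun hq4 => ?_⟩
  · simp only [lint_eq hχm hus]
    rw [lintegral_lintegral_swap hXm.aemeasurable]
    calc _ ≤ ∫⁻ t, C * ENNReal.ofReal ((1 + |t|) ^ (-((m : ℝ) * (q / 2 - 1)))) * J :=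
          lintegral_mono fun t => h1 t
      _ = C * K * J := by
          rw [hK, if_pos hq3, lintegral_mul_const, lintegral_const_mul]
          · fun_prop
          · fun_prop
      _ ≤ _ := mul_le_mul' (le_trans (le_trans le_add_self le_self_add) le_self_add) le_rfl
  · have e1 : ∀ a t : ℝ, ∫⁻ x, ‖ext (fun y => Pool.Agent.Helper969.TS.ch φ y * u a y) (x, t)‖ₑ ^ q =
        ∫⁻ x, ‖Pool.Agent.Helper969.TS.X φ u a t x‖ₑ ^ q := by
      intro a t
      simp only [ext_eq]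
      rfl
    simp only [e1]
    rw [lintegral_lintegral_swap hXm.aemeasurable]
    have e2 : -((m : ℝ) * (q / 2 - 1)) = -1 := by
      rw [hq3]
      field_simp
      ring
    rw [e2] at h1
    calc _ ≤ ∫⁻ t in Icc (-R) R, C * ENNReal.ofReal ((1 + |t|) ^ (-1 : ℝ)) * J :=
          lintegral_mono fun t => h1 t
      _ = C * (∫⁻ t in Icc (-R) R, ENNReal.ofReal ((1 + |t|) ^ (-1 : ℝ))) * J := by
          rw [lintegral_mul_const, lintegral_const_mul]
          · fun_prop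
          · fun_prop
      _ ≤ C * ENNReal.ofReal (4 * Real.log R) * J :=
          mul_le_mul' (mul_le_mul' le_rfl (Pool.Agent.Helper969.TS.log_bound R hR)) le_rfl
      _ = 4 * C * ENNReal.ofReal (Real.log R) * J := by
          rw [ENNReal.ofReal_mul (by norm_num), ENNReal.ofReal_ofNat]
          ring
      _ ≤ _ := mul_le_mul' (mul_le_mul' (le_trans le_add_self le_self_add) le_rfl) le_rfl
  · have e1 : ∀ a : ℝ, ∫⁻ x, ‖ext (fun y => Pool.Agent.Helper969.TS.ch φ y * u a y) (x, t)‖ₑ ^ q =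
        ∫⁻ x, ‖Pool.Agent.Helper969.TS.X φ u a t x‖ₑ ^ q := by
      intro a
      simp only [ext_eq]
      rfl
    simp only [e1]
    refine (h1 t).trans (mul_le_mul' (mul_le_mul' ?_ le_rfl) le_rfl)
    rw [add_assoc, add_assoc]
    exact le_self_add
  · have h2 := Pool.Agent.Helper969.TS.ae_slice hm φ hφ q hq hq4 f hf.1 hf.2.ne (sol_of hu) hhm
    filter_upwards [h2] with a ha
    have e1 : ∀ t : ℝ, ∫⁻ x, ‖ext (fun y => Pool.Agent.Helper969.TS.ch φ y * u a y) (x, t)‖ₑ ^ q =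
        ∫⁻ x, ‖Pool.Agent.Helper969.TS.X φ u a t x‖ₑ ^ q := by
      intro t
      simp only [ext_eq]
      rfl
    simp only [e1]
    refine le_trans ha (mul_le_mul' ?_ le_rfl)
    exact le_add_self

end Pool.Agent.Results.MP_5ab805_an.AverageOverTimes
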