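import Mathlib
import Pool.Agent.helper972_pl.Z1
set_option autoImplicit false

/-!
# The extension conjecture for the paraboloid in `ℝ³`, tested on planar times linear weights in all
frames

`ext U f ξ = ∫_U e^{-i Φ(x)·ξ} f(x) dx`, `Φ(x) = (x_1, x_2, x_1² + x_2²)`, `U ⊆ B(0, 1/2)`.

For every splitting of `ℝ³` into a plane and a line transversal to it, every weight which is the
product of an ARBITRARY function `u` of the planar component and an ARBITRARY function `w` of the
linear component satisfies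

`∫ u w |ext U f|² ≤ C ‖u‖_{L^{r₁,∞}} ‖w‖_{L^{r₂,∞}} ‖f‖_∞²`

as soon as `r₁, r₂ > 1` and `2 / r₁ + 1 / r₂ > 1`, with a constant which does not depend on the
splitting. For `r₁ = r₂ = q / (q - 2)`, the exponent dual to `q / 2`, the condition is `q > 3`, the
whole conjectured range. The splitting is given by an orthonormal basis `e` (`e 2` is normal to the
plane) and two slopes `a`, `b`: the line is spanned by `e 2 + a • e 0 + b • e 1`.

The proof interpolates between an estimate for cylinders (planar Plancherel after integrating out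
the direction of the line, with the density of the differences of the paraboloid) and an estimate
for slabs (Plancherel on the planes parallel to the given one).
-/

namespace Pool.Agent.Results.MP_5ab805_an.PlanarLinearFrames

open MeasureTheory Set Metric Complex
open scoped ENNReal NNReal RealInnerProductSpace

abbrev E (n : ℕ) := EuclideanSpace ℝ (Fin n)

/-- the paraboloid `x ↦ (x_1, x_2, x_1^2 + x_2^2)` -/
noncomputable def Phi (x : E 2) : E 3 := !₂[x 0, x 1, x 0 ^ 2 + x 1 ^ 2]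

/-- the Fourier extension operator of the paraboloid over `U` -/
noncomputable def ext (U : Set (E 2)) (f : E 2 → ℂ) (ξ : E 3) : ℂ :=
  ∫ x in U, Complex.exp (-((⟪Phi x, ξ⟫ : ℝ) : ℂ) * I) * f x

/-- the weak `L^r` norm, `sup_{s > 0} s |{u > s}|^(1/r)` -/
noncomputable def weakNorm {Ω : Type*} [MeasureSpace Ω] (r : ℝ) (u : Ω → ℝ≥0∞) : ℝ≥0∞ :=
  ⨆ s : {s : ℝ // 0 < s}, ENNReal.ofReal s * volume {p | ENNReal.ofReal s < u p} ^ (1 / r)

/-- the value at `ξ` of the product weight with factors `u`, `w` in the frame `e` with slopes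
`a`, `b` -/
noncomputable def weight (e : OrthonormalBasis (Fin 3) ℝ (E 3)) (a b : ℝ) (u : ℝ × ℝ → ℝ≥0∞)
    (w : ℝ → ℝ≥0∞) (ξ : E 3) : ℝ≥0∞ :=
  u (⟪e 0, ξ⟫ - a * ⟪e 2, ξ⟫, ⟪e 1, ξ⟫ - b * ⟪e 2, ξ⟫) * w ⟪e 2, ξ⟫

theorem result (r₁ r₂ : ℝ) (h₁ : 1 < r₁) (h₂ : 1 < r₂) (h : 1 < 2 / r₁ + 1 / r₂) :
    ∃ C : ℝ≥0, ∀ (U : Set (E 2)) (f : E 2 → ℂ) (e : OrthonormalBasis (Fin 3) ℝ (E 3)) (a b : ℝ)
      (u : ℝ × ℝ → ℝ≥0∞) (w : ℝ → ℝ≥0∞),
      MeasurableSet U → U ⊆ ball 0 (1 / 2) → MemLp f ∞ (volume.restrict U) →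
      Measurable u → Measurable w →
      ∫⁻ ξ, weight e a b u w ξ * ‖ext U f ξ‖ₑ ^ 2 ≤
        C * weakNorm r₁ u * weakNorm r₂ w * eLpNorm f ∞ (volume.restrict U) ^ 2 := by
  have p1 : 0 < r₁ := by linarith
  have p2 : 0 < r₂ := by linarith
  exact Pool.Agent.H972PL.final (1 / r₁) (1 / r₂) (by positivity) (by positivity)
    (by rw [div_lt_one p1]; exact h₁) (by rw [div_lt_one p2]; exact h₂)
    (by rw [mul_one_div]; exact h)

end Pool.Agent.Results.MP_5ab805_an.PlanarLinearFrames
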