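import Mathlib
import Pool.Agent.Helper134_FE.Scal
set_option autoImplicit false

/-!
# The extension conjecture for the paraboloid in `ℝ³` holds for tame functions

`ext U f ξ = ∫_U e^{-i Φ(x)·ξ} f(x) dx`, `Φ(x) = (x_1, x_2, x_1² + x_2²)`. A function is tame (with
parameter `N`) on `U` if the superlevel sets, in `U`, of the positive and negative parts of its real
and imaginary parts meet every line in at most `N` intervals. Examples: complex rational functions
of bounded degree on convex sets (with superlevel sets of any topology); functions with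
superlevel sets which are unions of `N` convex sets; indicator functions of annuli between convex
curves and of semialgebraic sets of bounded complexity.

* A. In the full conjectured range `q > 3`, `‖ext U (e^{iQ} f)‖_q ≤ C(q, N) ‖f‖_{L^q(U)}` for all
  tame `f` and ALL real quadratic polynomials `Q`, with the same constant.
* B. In particular for all complex rational functions `f` of degree at most `D` on convex sets `U`,
  with a constant which only depends on `q` and `D`.
* C. The scaling line, for arbitrary measurable `U ⊆ ℝ²`: for `q > 3` and `q = 2 p'`, that is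
  `p = q / (q - 2)`, and tame `f`, `‖ext U f‖_q ≤ C(q, N) ‖f‖_{L^p(U)}`.
* D. The endpoint `q = 3`, restricted weak type: `|{|ext A 1| > λ}| ≤ C(N) λ^(-3) |A|` for all tame
  sets `A` and all `λ > 0`.
-/

namespace Pool.Agent.Results.MP_5ab805_an.TameFunctions

open MeasureTheory Set Metric Complex
open scoped ENNReal NNReal RealInnerProductSpace

abbrev E (n : ℕ) := EuclideanSpace ℝ (Fin n)

/-- the paraboloid `x ↦ (x_1, x_2, x_1^2 + x_2^2)` -/
noncomputable def Phi (x : E 2) : E 3 := !₂[x 0, x 1, x 0 ^ 2 + x 1 ^ 2]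

/-- the Fourier extension operator of the paraboloid over `U` -/
noncomputable def ext (U : Set (E 2)) (f : E 2 → ℂ) (ξ : E 3) : ℂ :=
  ∫ x in U, Complex.exp (-((⟪Phi x, ξ⟫ : ℝ) : ℂ) * I) * f x

/-- `A` meets every line in at most `N` intervals (of any kind, possibly empty) -/
def Tame (N : ℕ) (A : Set (E 2)) : Prop :=
  ∀ y ω : E 2, ∃ J : Fin N → Set ℝ, (∀ i, (J i).OrdConnected) ∧
    {t : ℝ | y + t • ω ∈ A} = ⋃ i, J i

/-- the superlevel sets in `U` of the positive and negative parts of the real and imaginary parts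
of `f` meet every line in at most `N` intervals -/
def TameFun (N : ℕ) (U : Set (E 2)) (f : E 2 → ℂ) : Prop :=
  ∀ θ : ℂ, (θ = 1 ∨ θ = -1 ∨ θ = I ∨ θ = -I) → ∀ s : ℝ, 0 < s →
    Tame N {x | x ∈ U ∧ s < (θ * f x).re}

/-- `e^{i Q(x)}` for the quadratic polynomial `Q(x) = κ_0 ⟪v_0, x⟫² + κ_1 ⟪v_1, x⟫² + ⟪b, x⟫`. By
the spectral theorem this is, up to a constant factor, every function `e^{iQ}` with a real
polynomial `Q` of degree at most two. -/
noncomputable def chirp (v : OrthonormalBasis (Fin 2) ℝ (E 2)) (κ : Fin 2 → ℝ) (b : E 2)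
    (x : E 2) : ℂ :=
  Complex.exp (((κ 0 * ⟪v 0, x⟫ ^ 2 + κ 1 * ⟪v 1, x⟫ ^ 2 + ⟪b, x⟫ : ℝ) : ℂ) * I)

/-- the rational function `P / Q` -/
noncomputable def ratio (P Q : MvPolynomial (Fin 2) ℂ) (x : E 2) : ℂ :=
  MvPolynomial.eval (fun i => (x i : ℂ)) P / MvPolynomial.eval (fun i => (x i : ℂ)) Q

/-- A. All tame functions, modulated by all quadratic polynomials. -/
def Modulated : Prop :=
  ∀ q : ℝ, 3 < q → ∀ N : ℕ, ∃ C : ℝ≥0, ∀ (U : Set (E 2)) (f : E 2 → ℂ)
    (v : OrthonormalBasis (Fin 2) ℝ (E 2)) (κ : Fin 2 → ℝ) (b : E 2),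
    MeasurableSet U → U ⊆ ball 0 (1 / 2) → Measurable f → TameFun N U f →
    eLpNorm (ext U fun x => chirp v κ b x * f x) (ENNReal.ofReal q) volume ≤
      C * eLpNorm f (ENNReal.ofReal q) (volume.restrict U)

/-- B. Rational functions of bounded degree on convex sets, modulated by all quadratic
polynomials. -/
def RationalFunctions : Prop :=
  ∀ q : ℝ, 3 < q → ∀ D : ℕ, ∃ C : ℝ≥0, ∀ (U : Set (E 2)) (P Q : MvPolynomial (Fin 2) ℂ)
    (v : OrthonormalBasis (Fin 2) ℝ (E 2)) (κ : Fin 2 → ℝ) (b : E 2),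
    MeasurableSet U → U ⊆ ball 0 (1 / 2) → Convex ℝ U → P.totalDegree ≤ D → Q.totalDegree ≤ D →
    eLpNorm (ext U fun x => chirp v κ b x * ratio P Q x) (ENNReal.ofReal q) volume ≤
      C * eLpNorm (ratio P Q) (ENNReal.ofReal q) (volume.restrict U)

/-- C. The scaling line `q = 2 p'`. -/
def ScalingLine : Prop :=
  ∀ q : ℝ, 3 < q → ∀ N : ℕ, ∃ C : ℝ≥0, ∀ (U : Set (E 2)) (f : E 2 → ℂ),
    MeasurableSet U → Measurable f → TameFun N U f →
    eLpNorm (ext U f) (ENNReal.ofReal q) volume ≤
      C * eLpNorm f (ENNReal.ofReal (q / (q - 2))) (volume.restrict U)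

/-- D. The endpoint `q = 3`, restricted weak type. -/
def Endpoint : Prop :=
  ∀ N : ℕ, ∃ C : ℝ≥0, ∀ (A : Set (E 2)) (l : ℝ), MeasurableSet A → Tame N A → volume A ≠ ∞ →
    0 < l → ENNReal.ofReal (l ^ 3) * volume {ξ : E 3 | l < ‖ext A (fun _ => 1) ξ‖} ≤ C * volume A

/-- **Theorem.** The extension conjecture for the paraboloid in `ℝ³` holds for tame functions. -/
theorem result : Modulated ∧ RationalFunctions ∧ ScalingLine ∧ Endpoint := by
  refine ⟨?_, ?_, ?_, ?_⟩
  · intro q hq N
    exact Pool.Agent.Helper134_FE.mainA q hq N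
  · intro q hq D
    obtain ⟨C, hC⟩ := Pool.Agent.Helper134_FE.mainA q hq (2 * D + 1)
    refine ⟨C, fun U P Q v κ b hU hUb hc hP hQ => ?_⟩
    have hev : ∀ P : MvPolynomial (Fin 2) ℂ,
        Measurable fun x : E 2 => MvPolynomial.eval (fun i => (x i : ℂ)) P := by
      intro P
      have h1 : Continuous fun x : E 2 => (fun i : Fin 2 => (x i : ℂ)) := by fun_prop
      exact ((MvPolynomial.continuous_eval P).comp h1).measurable
    exact hC U (ratio P Q) v κ b hU hUb ((hev P).div (hev Q))
      (Pool.Agent.Helper134_FE.tame_rat D U hc P Q hP hQ)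
  · intro q hq N
    exact Pool.Agent.Helper134_FE.mainS q hq N
  · intro N
    exact Pool.Agent.Helper134_FE.mainW N

end Pool.Agent.Results.MP_5ab805_an.TameFunctions
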