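import Pool.Agent.Helper184.PH.Main3

/-!
# The extension conjecture for the paraboloid in `ℝ³`: a universal modulus, typical phases

`ext U f ξ = ∫_U e^{-i Φ(x)·ξ} f(x) dx`, `Φ(x) = (x_1, x_2, x_1² + x_2²)`, `U ⊆ B(0, 1/2)` with
nonempty interior. For every `q ≥ 1` there is the following alternative.

* Either `‖ext U f‖_q ≤ C ‖f‖_{L^q(U)}` for all `f` in `L^q(U)`;
* or there is one modulus `a ≥ 0` in `L^q(U)` such that, for the typical bounded continuous real
  phase `φ` (all `φ` outside a set of the first category), `ext U (a e^{iφ} 1_W)` is not in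
  `L^q(ℝ³)`, for all open sets `W` which meet the interior of `U`.

So the conjecture (for the set `U` and the exponent `q`) holds if and only if for every modulus
`a` in `L^q(U)` the phases `φ` such that `ext U (a e^{iφ} 1_W)` is in `L^q(ℝ³)` for some `W` form a
set of the second category: the phase only has to be continuous and can be typical, the whole
difficulty of the factor in `L^q` can be put into one modulus.
-/

open MeasureTheory Set Filter Metric
open scoped ENNReal NNReal Topology BoundedContinuousFunction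

namespace Pool.Agent.Results.MP_5ab805_an.UniversalModulus

/-- Euclidean space `ℝ^n` -/
abbrev E (n : ℕ) := EuclideanSpace ℝ (Fin n)

/-- the paraboloid `x ↦ (x_1, x_2, x_1^2 + x_2^2)` -/
noncomputable def Phi (x : E 2) : E 3 := !₂[x 0, x 1, x 0 ^ 2 + x 1 ^ 2]

/-- the Fourier extension operator of the paraboloid over `U` -/
noncomputable def ext (U : Set (E 2)) (f : E 2 → ℂ) (ξ : E 3) : ℂ :=
  ∫ x in U, f x * Complex.exp (-(inner ℝ (Phi x) ξ : ℝ) * Complex.I)

/-- the estimate of Q1: `‖ext U f‖_q ≤ C ‖f‖_{L^q(U)}` -/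
def Estimate (U : Set (E 2)) (q : ℝ) : Prop :=
  ∃ C : ℝ≥0, ∀ f : E 2 → ℂ, Measurable f → (∫⁻ x in U, ‖f x‖ₑ ^ q) ≠ ∞ →
    (∫⁻ ξ, ‖ext U f ξ‖ₑ ^ q) ≤ C * ∫⁻ x in U, ‖f x‖ₑ ^ q

/-- the function `a e^{iφ} 1_W` -/
noncomputable def wave (a : E 2 → ℝ≥0) (φ : E 2 →ᵇ ℝ) (W : Set (E 2)) (x : E 2) : ℂ :=
  (a x : ℂ) * W.indicator (fun y => Complex.exp (φ y * Complex.I)) x

/-- `a` is in `L^q(U)` -/
def Mod (U : Set (E 2)) (q : ℝ) (a : E 2 → ℝ≥0) : Prop :=
  Measurable a ∧ (∫⁻ x in U, (a x : ℝ≥0∞) ^ q) ≠ ∞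

/-- the phases for which `ext U (a e^{iφ} 1_W)` is in `L^q(ℝ³)` for some open set `W` which meets the
interior of `U` -/
def goodPhases (U : Set (E 2)) (q : ℝ) (a : E 2 → ℝ≥0) : Set (E 2 →ᵇ ℝ) :=
  {φ | ∃ W : Set (E 2), IsOpen W ∧ (W ∩ interior U).Nonempty ∧
    (∫⁻ ξ, ‖ext U (wave a φ W) ξ‖ₑ ^ q) ≠ ∞}

theorem est_iff (U : Set (E 2)) (q : ℝ) :
    Estimate U q ↔ Pool.Agent.Helper184.PH.P3.Est U q := Iff.rfl

theorem univ_not_meagre : ¬ IsMeagre (univ : Set (E 2 →ᵇ ℝ)) := fun h => by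
  have h1 : (univ : Set (E 2 →ᵇ ℝ))ᶜ ∈ residual _ := h
  obtain ⟨φ, hφ⟩ := (dense_of_mem_residual h1).nonempty
  exact hφ (mem_univ _)

theorem good_univ {U : Set (E 2)} (hne : (interior U).Nonempty) {q : ℝ} (hq : 1 ≤ q)
    (h : Estimate U q) {a : E 2 → ℝ≥0} (ha : Mod U q a) : goodPhases U q a = univ := by
  obtain ⟨C, hC⟩ := h
  refine eq_univ_of_forall fun φ => ⟨univ, isOpen_univ, by rwa [univ_inter], ?_⟩
  have hm : Measurable (wave a φ univ) := by
    have h1 : Measurable fun x => ((a x : ℝ) : ℂ) :=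
      Complex.measurable_ofReal.comp ha.1.coe_nnreal_real
    exact h1.mul ((Pool.Agent.Helper184.PH.ph_meas φ).indicator MeasurableSet.univ)
  have hn : ∀ x, ‖wave a φ univ x‖ₑ = (a x : ℝ≥0∞) := fun x => by
    unfold wave
    rw [indicator_univ, enorm_mul]
    have e1 : ‖Complex.exp (φ x * Complex.I)‖ₑ = 1 := by
      rw [← ofReal_norm, Complex.norm_exp_ofReal_mul_I, ENNReal.ofReal_one]
    have e2 : ‖((a x : ℝ) : ℂ)‖ₑ = (a x : ℝ≥0∞) := by
      rw [← ofReal_norm, Complex.norm_real, Real.norm_of_nonneg (a x).coe_nonneg,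
        ENNReal.ofReal_coe_nnreal]
    rw [e1, mul_one]
    exact e2
  have hfin : (∫⁻ x in U, ‖wave a φ univ x‖ₑ ^ q) ≠ ∞ := by
    simp only [hn]; exact ha.2
  exact ne_top_of_le_ne_top (ENNReal.mul_ne_top ENNReal.coe_ne_top hfin) (hC _ hm hfin)

/-- **One universal modulus, typical phases.** -/
theorem result (U : Set (E 2)) (hU : MeasurableSet U) (hUb : U ⊆ ball 0 (1 / 2))
    (hne : (interior U).Nonempty) :
    -- the alternative
    (∀ q : ℝ, 1 ≤ q → Estimate U q ∨ ∃ a : E 2 → ℝ≥0, Mod U q a ∧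
      ∀ᶠ φ : E 2 →ᵇ ℝ in residual _, ∀ W : Set (E 2), IsOpen W → (W ∩ interior U).Nonempty →
        (∫⁻ ξ, ‖ext U (wave a φ W) ξ‖ₑ ^ q) = ∞) ∧
    -- the estimate for one exponent
    (∀ q : ℝ, 1 ≤ q →
      (Estimate U q ↔ ∀ a : E 2 → ℝ≥0, Mod U q a → ¬ IsMeagre (goodPhases U q a))) ∧
    -- the conjecture for the set `U`
    ((∀ q : ℝ, 3 < q → Estimate U q) ↔
      ∀ q : ℝ, 3 < q → ∀ a : E 2 → ℝ≥0, Mod U q a → ¬ IsMeagre (goodPhases U q a)) := by
  have hA : ∀ q : ℝ, 1 ≤ q → Estimate U q ∨ ∃ a : E 2 → ℝ≥0, Mod U q a ∧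
      ∀ᶠ φ : E 2 →ᵇ ℝ in residual _, ∀ W : Set (E 2), IsOpen W → (W ∩ interior U).Nonempty →
        (∫⁻ ξ, ‖ext U (wave a φ W) ξ‖ₑ ^ q) = ∞ := fun q hq => by
    by_cases h : Estimate U q
    · exact Or.inl h
    · obtain ⟨a, ham, haf, hφ⟩ := Pool.Agent.Helper184.PH.P3.typical3 hU hUb hq h
      exact Or.inr ⟨a, ⟨ham, haf⟩, hφ⟩
  have hB : ∀ q : ℝ, 1 ≤ q →
      (Estimate U q ↔ ∀ a : E 2 → ℝ≥0, Mod U q a → ¬ IsMeagre (goodPhases U q a)) :=
    fun q hq => by
      constructor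
      · intro h a ha
        rw [good_univ hne hq h ha]
        exact univ_not_meagre
      · intro h
        rcases hA q hq with h1 | ⟨a, ha, hφ⟩
        · exact h1
        · exfalso
          refine h a ha ?_
          show (goodPhases U q a)ᶜ ∈ residual _
          filter_upwards [hφ] with φ hφ
          rintro ⟨W, hW, hWne, hfin⟩
          exact hfin (hφ W hW hWne)
  refine ⟨hA, hB, ?_⟩
  constructor
  · intro h q hq
    exact (hB q (by linarith)).1 (h q hq)
  · intro h q hq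
    exact (hB q (by linarith)).2 (h q hq)

end Pool.Agent.Results.MP_5ab805_an.UniversalModulus
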